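import Pool.Agent.Results.MP_3d0d30_nt.ReductionsAndLargeValues
import Pool.Agent.H448R2.GC.X2

set_option autoImplicit false

open Complex MeasureTheory Set Filter Topology
open Pool.Agent.Results.MP_3d0d30_nt.ReductionsAndLargeValues

namespace Pool.Agent.W5h1.ZD

lemma exp_two_le : Real.exp 2 ≤ 8 := by
  have h := Real.exp_one_lt_d9
  have h0 := Real.exp_pos 1
  have e : Real.exp 2 = Real.exp 1 ^ 2 := by
    rw [← Real.exp_nat_mul]
    norm_num
  rw [e]
  nlinarith

lemma exp_three_le : Real.exp 3 ≤ 21 := by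
  have h := Real.exp_one_lt_d9
  have h0 := Real.exp_pos 1
  have e : Real.exp 3 = Real.exp 1 ^ 3 := by
    rw [← Real.exp_nat_mul]
    norm_num
  rw [e]
  calc Real.exp 1 ^ 3 ≤ (2.7182818286 : ℝ) ^ 3 := by gcongr
    _ ≤ 21 := by norm_num

lemma exp_six_le : Real.exp 6 ≤ 404 := by
  have h := Real.exp_one_lt_d9
  have h0 := Real.exp_pos 1
  have e : Real.exp 6 = Real.exp 1 ^ 6 := by
    rw [← Real.exp_nat_mul]
    norm_num
  rw [e]
  calc Real.exp 1 ^ 6 ≤ (2.7182818286 : ℝ) ^ 6 := by gcongr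
    _ ≤ 404 := by norm_num

/-- the three lines theorem for the zeta function near a point where it is almost maximal -/
lemma local_sup {C : ℝ} (hC : 1 ≤ C) (hz : ∀ w : ℂ, 1 / 8 ≤ w.re → w.re ≤ 7 / 8 →
    ‖riemannZeta w‖ ≤ C * (1 + |w.im|)) {K t₀ T : ℝ} (hK : 1 ≤ K) (ht₀ : 0 ≤ t₀)
    (hT : t₀ + 1 ≤ 2 * T) (hmax : ∀ u : ℝ, Z u ≤ K * Real.exp |u - t₀|) {s : ℂ}
    (hs : |s.im - t₀| ≤ 1) (h8 : 1 / 8 ≤ s.re) (h7 : s.re ≤ 7 / 8) :
    ‖riemannZeta s‖ ≤ 21 * K * (8 * C * (1 + 2 * T)) ^ ((8 / 3) * |s.re - 1 / 2|) := by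
  have hT0 : 0 < T := by linarith
  set f : ℂ → ℂ := fun w => riemannZeta w * Complex.exp ((w - s) ^ 2) with hf
  have hnorm : ∀ w : ℂ, ‖f w‖ =
      ‖riemannZeta w‖ * Real.exp ((w.re - s.re) ^ 2 - (w.im - s.im) ^ 2) := by
    intro w
    rw [hf]
    simp only [norm_mul, Complex.norm_exp]
    congr 2
    rw [sq, Complex.mul_re, Complex.sub_re, Complex.sub_im]
    ring
  have hfs : ‖f s‖ = ‖riemannZeta s‖ := by
    rw [hnorm]
    simp
  have him : ∀ w : ℂ, |w.im| ≤ |w.im - s.im| + 2 * T := by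
    intro w
    have h1 := abs_le.1 hs
    rcases abs_cases w.im with ⟨h, _⟩ | ⟨h, _⟩ <;>
      rcases abs_cases (w.im - s.im) with ⟨h', _⟩ | ⟨h', _⟩ <;> rw [h, h'] <;> linarith
  have hre : ∀ w : ℂ, 1 / 8 ≤ w.re → w.re ≤ 7 / 8 → (w.re - s.re) ^ 2 ≤ 1 := by
    intro w h1 h2
    nlinarith
  set b : ℝ := 8 * C * (1 + 2 * T) with hb
  have hb1 : 1 ≤ b := by
    rw [hb]
    nlinarith
  have hstrip : ∀ w : ℂ, 1 / 8 ≤ w.re → w.re ≤ 7 / 8 → ‖f w‖ ≤ b := by
    intro w h1 h2
    rw [hnorm]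
    set y := |w.im - s.im| with hy
    have hy0 : 0 ≤ y := abs_nonneg _
    have e : (w.im - s.im) ^ 2 = y ^ 2 := (sq_abs _).symm
    rw [e]
    have h3 : 1 + |w.im| ≤ (1 + 2 * T) * Real.exp y := by
      have h4 := him w
      have h5 := Real.add_one_le_exp y
      nlinarith
    have h6 : Real.exp y * Real.exp ((w.re - s.re) ^ 2 - y ^ 2) ≤ 8 := by
      rw [← Real.exp_add]
      refine le_trans (Real.exp_le_exp.2 ?_) exp_two_le
      have := hre w h1 h2
      nlinarith [sq_nonneg (y - 1)]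
    have hexp := Real.exp_pos ((w.re - s.re) ^ 2 - y ^ 2)
    calc ‖riemannZeta w‖ * Real.exp ((w.re - s.re) ^ 2 - y ^ 2)
        ≤ (C * (1 + |w.im|)) * Real.exp ((w.re - s.re) ^ 2 - y ^ 2) := by
          gcongr
          exact hz w h1 h2
      _ ≤ (C * ((1 + 2 * T) * Real.exp y)) * Real.exp ((w.re - s.re) ^ 2 - y ^ 2) := by
          gcongr
      _ = C * (1 + 2 * T) * (Real.exp y * Real.exp ((w.re - s.re) ^ 2 - y ^ 2)) := by ring
      _ ≤ C * (1 + 2 * T) * 8 := by gcongr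
      _ = b := by rw [hb]; ring
  set a : ℝ := 21 * K with ha
  have ha1 : 1 ≤ a := by rw [ha]; linarith
  have hmid : ∀ w : ℂ, w.re = 1 / 2 → ‖f w‖ ≤ a := by
    intro w h1
    rw [hnorm]
    set y := |w.im - s.im| with hy
    have hy0 : 0 ≤ y := abs_nonneg _
    have e : (w.im - s.im) ^ 2 = y ^ 2 := (sq_abs _).symm
    rw [e]
    have hw : w = 1 / 2 + (w.im : ℂ) * I := by
      apply Complex.ext
      · simp [h1]
      · simp
    have h2 : ‖riemannZeta w‖ ≤ K * Real.exp |w.im - t₀| := by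
      have h3 := hmax w.im
      unfold Z at h3
      rwa [← hw] at h3
    have h3 : |w.im - t₀| ≤ y + 1 := by
      have h4 : w.im - t₀ = (w.im - s.im) + (s.im - t₀) := by ring
      rw [h4]
      exact (abs_add_le _ _).trans (by linarith)
    have h6 : Real.exp |w.im - t₀| * Real.exp ((w.re - s.re) ^ 2 - y ^ 2) ≤ 21 := by
      rw [← Real.exp_add]
      refine le_trans (Real.exp_le_exp.2 ?_) exp_three_le
      have := hre w (by linarith) (by linarith)
      nlinarith [sq_nonneg (y - 1)]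
    calc ‖riemannZeta w‖ * Real.exp ((w.re - s.re) ^ 2 - y ^ 2)
        ≤ (K * Real.exp |w.im - t₀|) * Real.exp ((w.re - s.re) ^ 2 - y ^ 2) := by gcongr
      _ = K * (Real.exp |w.im - t₀| * Real.exp ((w.re - s.re) ^ 2 - y ^ 2)) := by ring
      _ ≤ K * 21 := by gcongr
      _ = a := by rw [ha]; ring
  have hdiff : ∀ l u : ℝ, u ≤ 7 / 8 → DiffContOnCl ℂ f (HadamardThreeLines.verticalStrip l u) := by
    intro l u hu
    apply DifferentiableOn.diffContOnCl
    have hcl : closure (HadamardThreeLines.verticalStrip l u) ⊆ re ⁻¹' Icc l u :=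
      closure_minimal (preimage_mono Ioo_subset_Icc_self) (isClosed_Icc.preimage continuous_re)
    intro w hw
    have h1 := (hcl hw).2
    have hne : w ≠ 1 := by
      intro h
      rw [h] at h1
      norm_num at h1
      linarith
    have h2 : DifferentiableAt ℂ (fun w : ℂ => Complex.exp ((w - s) ^ 2)) w := by fun_prop
    exact ((differentiableAt_riemannZeta hne).mul h2).differentiableWithinAt
  rw [← hfs]
  rcases le_total (1 / 2) s.re with h | h
  · have h1 := HadamardThreeLines.norm_le_interp_of_mem_verticalClosedStrip' (f := f) (z := s)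
      (a := a) (b := b) (l := 1 / 2) (u := 7 / 8) (by norm_num) ⟨h, h7⟩ (hdiff _ _ le_rfl)
      ⟨b, by
        rintro _ ⟨w, hw, rfl⟩
        exact hstrip w (by linarith [hw.1]) hw.2⟩
      (fun w hw => hmid w hw) (fun w hw => hstrip w (by rw [show w.re = 7 / 8 from hw]; norm_num)
        (le_of_eq hw))
    refine h1.trans ?_
    have e : (s.re - 1 / 2) / (7 / 8 - 1 / 2) = 8 / 3 * |s.re - 1 / 2| := by
      rw [abs_of_nonneg (by linarith)]
      ring
    rw [e]
    have h2 : a ^ (1 - 8 / 3 * |s.re - 1 / 2|) ≤ a := by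
      calc a ^ (1 - 8 / 3 * |s.re - 1 / 2|) ≤ a ^ (1:ℝ) := by
            apply Real.rpow_le_rpow_of_exponent_le ha1
            have := abs_nonneg (s.re - 1 / 2)
            linarith
        _ = a := Real.rpow_one a
    gcongr
  · have h1 := HadamardThreeLines.norm_le_interp_of_mem_verticalClosedStrip' (f := f) (z := s)
      (a := b) (b := a) (l := 1 / 8) (u := 1 / 2) (by norm_num) ⟨h8, h⟩ (hdiff _ _ (by norm_num))
      ⟨b, by
        rintro _ ⟨w, hw, rfl⟩
        exact hstrip w hw.1 (by linarith [hw.2])⟩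
      (fun w hw => hstrip w (ge_of_eq hw) (by rw [show w.re = 1 / 8 from hw]; norm_num))
      (fun w hw => hmid w hw)
    refine h1.trans ?_
    have e : 1 - (s.re - 1 / 8) / (1 / 2 - 1 / 8) = 8 / 3 * |s.re - 1 / 2| := by
      rw [abs_of_nonpos (by linarith)]
      ring
    have e2 : (s.re - 1 / 8) / (1 / 2 - 1 / 8) = 1 - 8 / 3 * |s.re - 1 / 2| := by
      rw [← e]
      ring
    rw [e, e2, mul_comm]
    have h2 : a ^ (1 - 8 / 3 * |s.re - 1 / 2|) ≤ a := by
      calc a ^ (1 - 8 / 3 * |s.re - 1 / 2|) ≤ a ^ (1:ℝ) := by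
            apply Real.rpow_le_rpow_of_exponent_le ha1
            have := abs_nonneg (s.re - 1 / 2)
            linarith
        _ = a := Real.rpow_one a
    gcongr

end Pool.Agent.W5h1.ZD
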