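import Pool.Agent.W5h1.ZD.P1

set_option autoImplicit false

open Complex MeasureTheory Set Filter Topology
open Pool.Agent.Results.MP_3d0d30_nt.ReductionsAndLargeValues

namespace Pool.Agent.W5h1.ZD

/-- an almost maximal point of a function of polynomial growth -/
lemma almost_max {C : ℝ} (hC : 1 ≤ C) (hg : ∀ u : ℝ, Z u ≤ C * (1 + |u|)) {T : ℝ}
    (hT : 1000 * C ≤ T) {t : ℝ} (ht : t ∈ Icc (0:ℝ) T) (hV : 1 ≤ Z t) :
    ∃ t₀ : ℝ, 0 ≤ t₀ ∧ t₀ + 1 ≤ 2 * T ∧ Z t ≤ 2 * Z t₀ ∧
      ∀ u : ℝ, Z u ≤ 2 * (1 + C) * Z t₀ * Real.exp |u - t₀| := by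
  have hT0 : 1000 ≤ T := by linarith
  set g : ℝ → ℝ := fun u => Z u * Real.exp (-max 0 (u - T)) with hgdef
  have hbd : ∀ u : ℝ, 0 ≤ u → g u ≤ C * (1 + T) := by
    intro u hu
    have h1 := hg u
    rw [abs_of_nonneg hu] at h1
    rcases le_total u T with h | h
    · have e : max 0 (u - T) = 0 := max_eq_left (by linarith)
      rw [hgdef]
      simp only [e, neg_zero, Real.exp_zero, mul_one]
      nlinarith
    · have e : max 0 (u - T) = u - T := max_eq_right (by linarith)
      rw [hgdef]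
      simp only [e]
      have h2 := Real.add_one_le_exp (u - T)
      have h3 : 0 < Real.exp (-(u - T)) := Real.exp_pos _
      have h4 : Real.exp (u - T) * Real.exp (-(u - T)) = 1 := by
        rw [← Real.exp_add]
        simp
      have h5 : 1 + u ≤ (1 + T) * Real.exp (u - T) := by nlinarith
      calc Z u * Real.exp (-(u - T)) ≤ (C * (1 + u)) * Real.exp (-(u - T)) := by gcongr
        _ ≤ (C * ((1 + T) * Real.exp (u - T))) * Real.exp (-(u - T)) := by gcongr
        _ = C * (1 + T) * (Real.exp (u - T) * Real.exp (-(u - T))) := by ring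
        _ = C * (1 + T) := by rw [h4, mul_one]
  have hB : BddAbove (g '' Ici 0) := ⟨C * (1 + T), by
    rintro _ ⟨u, hu, rfl⟩
    exact hbd u hu⟩
  have hgt : g t = Z t := by
    have e : max 0 (t - T) = 0 := max_eq_left (by linarith [ht.2])
    rw [hgdef]
    simp only [e, neg_zero, Real.exp_zero, mul_one]
  have hS : Z t ≤ sSup (g '' Ici 0) := by
    rw [← hgt]
    exact le_csSup hB ⟨t, ht.1, rfl⟩
  obtain ⟨_, ⟨t₀, ht₀, rfl⟩, hlt⟩ := exists_lt_of_lt_csSup (s := g '' Ici 0)
    (b := sSup (g '' Ici 0) / 2) ⟨g t, t, ht.1, rfl⟩ (by linarith)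
  have ht₀ : 0 ≤ t₀ := ht₀
  have hle : ∀ u : ℝ, 0 ≤ u → g u ≤ 2 * g t₀ := by
    intro u hu
    have := le_csSup hB ⟨u, hu, rfl⟩
    linarith
  have hgZ : g t₀ ≤ Z t₀ := by
    rw [hgdef]
    have h1 : Real.exp (-max 0 (t₀ - T)) ≤ 1 := by
      rw [Real.exp_le_one_iff]
      have := le_max_left 0 (t₀ - T)
      linarith
    calc Z t₀ * Real.exp (-max 0 (t₀ - T)) ≤ Z t₀ * 1 := by
          gcongr
          exact Z_nonneg _
      _ = Z t₀ := mul_one _
  have hZ0 : Z t ≤ 2 * Z t₀ := by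
    have := hle t ht.1
    rw [hgt] at this
    linarith
  refine ⟨t₀, ht₀, ?_, hZ0, ?_⟩
  · by_contra hcon
    push Not at hcon
    set x := t₀ - T with hx
    have hx1 : T - 1 < x := by linarith
    have e : max 0 (t₀ - T) = x := max_eq_right (by linarith)
    have h1 : 1 / 2 ≤ g t₀ := by linarith
    rw [hgdef] at h1
    simp only [e] at h1
    have h2 := hg t₀
    rw [abs_of_nonneg ht₀] at h2
    have h3 : 0 < Real.exp (-x) := Real.exp_pos _
    have h4 := Real.quadratic_le_exp_of_nonneg (x := x) (by linarith)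
    have h5 : Real.exp x * Real.exp (-x) = 1 := by
      rw [← Real.exp_add]
      simp
    have h6 : 1 / 2 * Real.exp x ≤ C * (1 + t₀) := by
      calc 1 / 2 * Real.exp x ≤ (Z t₀ * Real.exp (-x)) * Real.exp x := by gcongr
        _ = Z t₀ * (Real.exp x * Real.exp (-x)) := by ring
        _ = Z t₀ := by rw [h5, mul_one]
        _ ≤ C * (1 + t₀) := h2
    have h7 : t₀ ≤ 2 * x + 1 := by linarith
    have h8 : x ^ 2 / 4 ≤ C * (2 * x + 2) := by nlinarith
    have h9 : 999 * C ≤ x := by linarith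
    nlinarith
  · intro u
    rcases le_total 0 u with h | h
    · have h1 := hle u h
      rw [hgdef] at h1
      simp only at h1
      have h2 : 0 < Real.exp (-max 0 (u - T)) := Real.exp_pos _
      have e1 : Real.exp (max 0 (u - T)) * Real.exp (-max 0 (u - T)) = 1 := by
        rw [← Real.exp_add]
        simp
      have h3 : Real.exp (-max 0 (t₀ - T)) * Real.exp (max 0 (u - T)) ≤ Real.exp |u - t₀| := by
        rw [← Real.exp_add, Real.exp_le_exp]
        have h4 := le_abs_self (u - t₀)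
        have h5 := abs_nonneg (u - t₀)
        rcases le_total 0 (t₀ - T) with h6 | h6 <;> rcases le_total 0 (u - T) with h7 | h7
        · rw [max_eq_right h6, max_eq_right h7]; linarith
        · rw [max_eq_right h6, max_eq_left h7]; linarith
        · rw [max_eq_left h6, max_eq_right h7]; linarith
        · rw [max_eq_left h6, max_eq_left h7]; linarith
      have hZ1 : 0 ≤ Z t₀ := Z_nonneg _
      calc Z u = (Z u * Real.exp (-max 0 (u - T))) * Real.exp (max 0 (u - T)) := by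
            rw [mul_assoc, mul_comm (Real.exp (-max 0 (u - T))), e1, mul_one]
        _ ≤ (2 * (Z t₀ * Real.exp (-max 0 (t₀ - T)))) * Real.exp (max 0 (u - T)) := by gcongr
        _ = 2 * Z t₀ * (Real.exp (-max 0 (t₀ - T)) * Real.exp (max 0 (u - T))) := by ring
        _ ≤ 2 * Z t₀ * Real.exp |u - t₀| := by gcongr
        _ ≤ 2 * (1 + C) * Z t₀ * Real.exp |u - t₀| := by
            gcongr
            linarith
    · have h1 := hg u
      have h2 : |u| ≤ |u - t₀| := by
        rw [abs_of_nonpos h, abs_of_nonpos (by linarith)]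
        linarith
      have h3 := Real.add_one_le_exp |u - t₀|
      have hZ1 : 1 ≤ 2 * Z t₀ := by linarith
      have hexp : 0 < Real.exp |u - t₀| := Real.exp_pos _
      calc Z u ≤ C * (1 + |u|) := h1
        _ ≤ C * Real.exp |u - t₀| := by
            gcongr
            linarith
        _ ≤ (C * (2 * Z t₀)) * Real.exp |u - t₀| := by
            gcongr
            nlinarith
        _ ≤ 2 * (1 + C) * Z t₀ * Real.exp |u - t₀| :=
            mul_le_mul_of_nonneg_right (by nlinarith) hexp.le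

/-- large values of the zeta function persist on an interval of length `c / log T` -/
lemma core {C : ℝ} (hC : 1 ≤ C) (hz : ∀ w : ℂ, 1 / 8 ≤ w.re → w.re ≤ 7 / 8 →
    ‖riemannZeta w‖ ≤ C * (1 + |w.im|)) {T : ℝ} (hT : 1000 * C ≤ T) {t : ℝ}
    (ht : t ∈ Icc (0:ℝ) T) (hV : 1 ≤ Z t) :
    ∃ t₀ : ℝ, 0 ≤ t₀ ∧ t₀ + 1 / (40000 * (1 + C) * Real.log T) ≤ 2 * T ∧
      ∀ u ∈ Icc t₀ (t₀ + 1 / (40000 * (1 + C) * Real.log T)), Z t / 4 ≤ Z u := by
  have hg : ∀ u : ℝ, Z u ≤ C * (1 + |u|) := by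
    intro u
    have h := hz (1 / 2 + (u : ℂ) * I) (by simp; norm_num) (by simp; norm_num)
    simpa [Z] using h
  set D : ℝ := 40000 * (1 + C) with hD
  have hT3 : 1000 ≤ T := by linarith
  have hL := log_ge hT3
  have hL0 : 0 < Real.log T := by linarith
  obtain ⟨t₀, ht₀, ht₀T, hZ0, hmax⟩ := almost_max hC hg hT ht hV
  set K : ℝ := 2 * (1 + C) * Z t₀ with hKdef
  have hZh : 1 / 2 ≤ Z t₀ := by linarith
  have hK : 1 ≤ K := by
    rw [hKdef]
    nlinarith
  set δ : ℝ := 1 / Real.log T with hδ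
  have hδ0 : 0 < δ := by positivity
  have hδ1 : δ ≤ 3 / 8 := by
    rw [hδ, div_le_iff₀ hL0]
    linarith
  -- the bound near the point
  have hnear : ∀ s : ℂ, |s.im - t₀| ≤ 1 → |s.re - 1 / 2| ≤ δ → ‖riemannZeta s‖ ≤ 10000 * K := by
    intro s h1 h2
    have h3 := abs_le.1 h2
    refine (local_sup hC hz hK ht₀ ht₀T hmax h1 (by linarith) (by linarith)).trans ?_
    have h4 : 8 * C * (1 + 2 * T) ≤ T ^ 2 := by nlinarith
    have h5 : (8 * C * (1 + 2 * T)) ^ ((8 / 3) * |s.re - 1 / 2|) ≤ 404 := by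
      have h6 : 1 ≤ T ^ 2 := by nlinarith
      calc (8 * C * (1 + 2 * T)) ^ ((8 / 3) * |s.re - 1 / 2|)
          ≤ (T ^ 2) ^ ((8 / 3) * |s.re - 1 / 2|) := by
            apply Real.rpow_le_rpow (by positivity) h4
            positivity
        _ ≤ (T ^ 2) ^ (3 * δ) := by
            apply Real.rpow_le_rpow_of_exponent_le h6
            nlinarith [abs_nonneg (s.re - 1 / 2)]
        _ = Real.exp 6 := by
            rw [Real.rpow_def_of_pos (by positivity), Real.log_pow, hδ]
            congr 1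
            push_cast
            field_simp
            norm_num
        _ ≤ 404 := exp_six_le
    calc 21 * K * (8 * C * (1 + 2 * T)) ^ ((8 / 3) * |s.re - 1 / 2|) ≤ 21 * K * 404 := by gcongr
      _ ≤ 10000 * K := by linarith
  -- the derivative
  have hder : ∀ u ∈ Icc (t₀ - 1 / 2) (t₀ + 1 / 2),
      ‖deriv riemannZeta (1 / 2 + u * I) * I‖ ≤ 10000 * K * Real.log T := by
    intro u hu
    have hball : ∀ w : ℂ, w ∈ Metric.closedBall (1 / 2 + (u:ℂ) * I) δ →
        |w.im - t₀| ≤ 1 ∧ |w.re - 1 / 2| ≤ δ := by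
      intro w hw
      rw [Metric.mem_closedBall, dist_eq_norm] at hw
      have h1 := (Complex.abs_re_le_norm (w - (1 / 2 + (u:ℂ) * I))).trans hw
      have h2 := (Complex.abs_im_le_norm (w - (1 / 2 + (u:ℂ) * I))).trans hw
      simp only [Complex.sub_re, Complex.add_re, Complex.mul_re, Complex.ofReal_re, Complex.I_re,
        Complex.ofReal_im, Complex.I_im, Complex.sub_im, Complex.add_im, Complex.mul_im] at h1 h2
      norm_num at h1 h2
      refine ⟨?_, h1⟩
      rw [abs_le] at h2 ⊢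
      constructor <;> linarith [hu.1, hu.2]
    have hd : DiffContOnCl ℂ riemannZeta (Metric.ball (1 / 2 + (u:ℂ) * I) δ) := by
      refine DifferentiableOn.diffContOnCl_ball (U := Metric.closedBall (1 / 2 + (u:ℂ) * I) δ)
        (fun w hw => ?_) subset_rfl
      refine (differentiableAt_riemannZeta ?_).differentiableWithinAt
      intro h
      have := (hball w hw).2
      rw [h, abs_le] at this
      norm_num at this
      linarith
    have h3 := Complex.norm_deriv_le_of_forall_mem_sphere_norm_le (c := 1 / 2 + (u:ℂ) * I)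
      (R := δ) (C := 10000 * K) hδ0 hd (fun w hw => by
        have h4 := hball w (Metric.sphere_subset_closedBall hw)
        exact hnear w h4.1 h4.2)
    rw [norm_mul, Complex.norm_I, mul_one]
    refine h3.trans (le_of_eq ?_)
    rw [hδ]
    field_simp
  have hlip : ∀ u ∈ Icc (t₀ - 1 / 2) (t₀ + 1 / 2),
      |Z u - Z t₀| ≤ 10000 * K * Real.log T * |u - t₀| := by
    intro u hu
    have h := Convex.norm_image_sub_le_of_norm_hasDerivWithin_le
      (f := fun u : ℝ => riemannZeta (1 / 2 + u * I))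
      (f' := fun u : ℝ => deriv riemannZeta (1 / 2 + u * I) * I)
      (s := Icc (t₀ - 1 / 2) (t₀ + 1 / 2))
      (fun u _ => by
        have hne : (1 / 2 + (u:ℂ) * I) ≠ 1 := by
          intro h
          have := congrArg Complex.re h
          simp at this
        have h1 := (differentiableAt_riemannZeta hne).hasDerivAt
        have h2 : HasDerivAt (fun v : ℝ => (1 / 2 + (v:ℂ) * I)) I u := by
          have h3 : HasDerivAt (fun v : ℝ => (v:ℂ)) 1 u := Complex.ofRealCLM.hasDerivAt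
          have h4 := (h3.mul_const I).const_add (1 / 2 : ℂ)
          simpa using h4
        exact (h1.comp_of_eq u h2 rfl).hasDerivWithinAt) hder (convex_Icc _ _)
      (show t₀ ∈ Icc (t₀ - 1 / 2) (t₀ + 1 / 2) from ⟨by linarith, by linarith⟩) hu
    have h5 : |Z u - Z t₀| ≤ ‖riemannZeta (1 / 2 + u * I) - riemannZeta (1 / 2 + t₀ * I)‖ :=
      abs_norm_sub_norm_le _ _
    refine (h5.trans h).trans ?_
    rw [Real.norm_eq_abs]
  set r : ℝ := 1 / (D * Real.log T) with hr
  have hD0 : 0 < D := by rw [hD]; linarith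
  have hr0 : 0 < r := by positivity
  have hr1 : r ≤ 1 / 2 := by
    rw [hr]
    apply one_div_le_one_div_of_le (by norm_num)
    rw [hD]
    nlinarith
  have hlow : ∀ u ∈ Icc t₀ (t₀ + r), Z t / 4 ≤ Z u := by
    intro u hu
    have h1 := hlip u ⟨by linarith [hu.1], by linarith [hu.2]⟩
    have h2 : |u - t₀| ≤ r := by
      rw [abs_le]
      constructor <;> linarith [hu.1, hu.2]
    have h3 : 10000 * K * Real.log T * |u - t₀| ≤ Z t₀ / 2 := by
      calc 10000 * K * Real.log T * |u - t₀| ≤ 10000 * K * Real.log T * r := by gcongr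
        _ = Z t₀ / 2 := by
          rw [hr, hD, hKdef]
          field_simp
          norm_num
    have h4 := (abs_le.1 (h1.trans h3)).1
    linarith
  exact ⟨t₀, ht₀, by linarith, hlow⟩

lemma persist0 : ∃ D T₁ : ℝ, 1 ≤ D ∧ 1000 ≤ T₁ ∧ ∀ T : ℝ, T₁ ≤ T → ∀ t ∈ Icc (0:ℝ) T,
    1 ≤ Z t → ∃ t₀ : ℝ, 0 ≤ t₀ ∧ t₀ + 1 / (D * Real.log T) ≤ 2 * T ∧
      ∀ u ∈ Icc t₀ (t₀ + 1 / (D * Real.log T)), Z t / 4 ≤ Z u := by
  obtain ⟨C₀, hC₀, hz₀⟩ := Pool.Agent.H448R2.GC.zeta_growth_mid
  have hC : 1 ≤ max 1 C₀ := le_max_left _ _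
  refine ⟨40000 * (1 + max 1 C₀), 1000 * max 1 C₀, by linarith, by linarith,
    fun T hT t ht hV => core hC (fun w h1 h2 => ?_) hT ht hV⟩
  refine (hz₀ w h1 h2).trans ?_
  have : C₀ ≤ max 1 C₀ := le_max_right _ _
  gcongr

/-- a large value on an interval gives a large moment -/
lemma moment_of {V r t₀ X k : ℝ} (hk : 0 ≤ k) (ht₀ : 0 ≤ t₀) (hr : 0 ≤ r) (hX : t₀ + r ≤ X)
    (hV : 0 ≤ V) (hlow : ∀ u ∈ Icc t₀ (t₀ + r), V ≤ Z u) : r * V ^ (2 * k) ≤ M k X := by
  have hcont : Continuous fun s : ℝ => Z s ^ (2 * k) :=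
    Z_cont.rpow_const fun x => Or.inr (by linarith)
  have hint : ∀ a b : ℝ, IntervalIntegrable (fun s : ℝ => Z s ^ (2 * k)) volume a b :=
    fun a b => hcont.intervalIntegrable a b
  have hab : t₀ ≤ t₀ + r := by linarith
  have h1 : ∫ s in t₀..(t₀ + r), V ^ (2 * k) ≤ ∫ s in t₀..(t₀ + r), Z s ^ (2 * k) := by
    apply intervalIntegral.integral_mono_on hab intervalIntegrable_const (hint _ _)
    intro s hs
    exact Real.rpow_le_rpow hV (hlow s hs) (by linarith)
  have h2 : ∫ s in t₀..(t₀ + r), Z s ^ (2 * k) ≤ ∫ s in (0:ℝ)..X, Z s ^ (2 * k) := by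
    apply intervalIntegral.integral_mono_interval ht₀ hab hX _ (hint 0 X)
    exact Eventually.of_forall fun s => Real.rpow_nonneg (Z_nonneg s) _
  rw [intervalIntegral.integral_const, smul_eq_mul] at h1
  have h3 : t₀ + r - t₀ = r := by ring
  rw [h3] at h1
  exact h1.trans h2

/-- a large value gives a large moment -/
lemma persist : ∃ D T₁ : ℝ, 1 ≤ D ∧ 1000 ≤ T₁ ∧ ∀ T : ℝ, T₁ ≤ T → ∀ k : ℝ, 0 ≤ k →
    ∀ t ∈ Icc (0:ℝ) T, 1 ≤ Z t → (Z t / 4) ^ (2 * k) ≤ D * Real.log T * M k (2 * T) := by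
  obtain ⟨D, T₁, hD, hT₁, hp⟩ := persist0
  refine ⟨D, T₁, hD, hT₁, fun T hT k hk t ht hV => ?_⟩
  obtain ⟨t₀, ht₀, htr, hlow⟩ := hp T hT t ht hV
  have hL0 : 0 < Real.log T := by linarith [log_ge (hT₁.trans hT)]
  have h4 := moment_of hk ht₀ (by positivity) htr (by linarith) hlow
  rw [one_div, inv_mul_eq_div, div_le_iff₀ (by positivity)] at h4
  linarith

end Pool.Agent.W5h1.ZD
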