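import Pool.Agent.W5h1.ZD.P2

set_option autoImplicit false

open Complex MeasureTheory Set Filter Topology
open Pool.Agent.Results.MP_3d0d30_nt.ReductionsAndLargeValues

namespace Pool.Agent.W5h1.ZD

/-- the exponent in the bound for the maximum given by the order `k` -/
noncomputable def expo (k T : ℝ) : ℝ := (k + (Real.log T / Real.log (Real.log T) + 1) / k) / 2

/-- the critical order `√(log T / log log T)` -/
noncomputable def crit (T : ℝ) : ℝ := Real.sqrt (Real.log T / Real.log (Real.log T))

lemma tend_ll : Tendsto (fun T : ℝ => Real.log (Real.log T)) atTop atTop :=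
  Real.tendsto_log_atTop.comp Real.tendsto_log_atTop

lemma tend_ratio : Tendsto (fun T : ℝ => Real.log T / Real.log (Real.log T)) atTop atTop := by
  have h : Tendsto (fun x : ℝ => x / Real.log x) atTop atTop := by
    have h1 : Tendsto (fun x : ℝ => Real.log x / x) atTop (𝓝[>] 0) := by
      rw [tendsto_nhdsWithin_iff]
      refine ⟨?_, ?_⟩
      · have := Real.isLittleO_log_id_atTop.tendsto_div_nhds_zero
        simpa using this
      · filter_upwards [eventually_gt_atTop 1] with x hx
        have := Real.log_pos hx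
        exact div_pos this (by linarith)
    have h2 := h1.inv_tendsto_nhdsGT_zero
    refine h2.congr fun x => ?_
    simp
  exact h.comp Real.tendsto_log_atTop

lemma loglog_two {T : ℝ} (hT : 1000 ≤ T) :
    Real.log (Real.log (2 * T)) ≤ Real.log (Real.log T) + 1 / Real.log T := by
  have hL := log_ge hT
  have hL0 : 0 < Real.log T := by linarith
  have h1 : Real.log (2 * T) = Real.log T * (1 + Real.log 2 / Real.log T) := by
    rw [Real.log_mul (by norm_num) (by linarith)]
    field_simp
    ring
  have h2 : 0 < Real.log 2 := Real.log_pos (by norm_num)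
  have h3 : Real.log 2 ≤ 1 := by
    have := Real.log_two_lt_d9
    linarith
  have h4 : 0 < Real.log 2 / Real.log T := by positivity
  rw [h1, Real.log_mul hL0.ne' (by positivity)]
  have h5 := Real.log_le_sub_one_of_pos (show 0 < 1 + Real.log 2 / Real.log T by positivity)
  have h6 : Real.log 2 / Real.log T ≤ 1 / Real.log T := by gcongr
  linarith

lemma sup_mid {D T k₀ : ℝ} (hD : 1 ≤ D) (hT : 1000 ≤ T) {k : ℝ} (hk₀ : 1 ≤ k₀) (hk₁ : k₀ ≤ k)
    (hkL : k ≤ Real.log T) (hg : Good k (2 * T)) {V ε : ℝ} (hV : 1 ≤ V)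
    (hp : (V / 4) ^ (2 * k) ≤ D * Real.log T * M k (2 * T))
    (hε : Real.log 4 + Real.log (2 * D) / (2 * k₀) + 1 / 2 ≤ ε * Real.log (Real.log T)) :
    V ≤ Real.log T ^ (expo k T + ε) := by
  have hk : 1 ≤ k := hk₀.trans hk₁
  have hL := log_ge hT
  have hL0 : 0 < Real.log T := by linarith
  have hl := loglog_ge hT
  have hl0 : 0 < Real.log (Real.log T) := by linarith
  have hT0 : 0 < T := by linarith
  have hL2 : 0 < Real.log (2 * T) := Real.log_pos (by linarith)
  set L := Real.log T with hLdef
  set l := Real.log L with hldef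
  have h1 : (V / 4) ^ (2 * k) ≤ D * L * (2 * T * Real.log (2 * T) ^ (k ^ 2)) := by
    refine hp.trans ?_
    have : M k (2 * T) ≤ 2 * T * Real.log (2 * T) ^ (k ^ 2) := hg
    gcongr
  have h2 := Real.log_le_log (by positivity) h1
  rw [Real.log_rpow (by positivity), Real.log_div (by positivity) (by norm_num)] at h2
  have hR : 0 < Real.log (2 * T) ^ (k ^ 2) := Real.rpow_pos_of_pos hL2 _
  have e : Real.log (D * L * (2 * T * Real.log (2 * T) ^ (k ^ 2))) =
      Real.log (2 * D) + (l + (L + k ^ 2 * Real.log (Real.log (2 * T)))) := by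
    have e0 : D * L * (2 * T * Real.log (2 * T) ^ (k ^ 2)) =
        (2 * D) * (L * (T * Real.log (2 * T) ^ (k ^ 2))) := by ring
    rw [e0, Real.log_mul (show (2 * D) ≠ 0 by linarith) (by positivity),
      Real.log_mul hL0.ne' (by positivity), Real.log_mul hT0.ne' hR.ne', Real.log_rpow hL2]
  rw [e] at h2
  have h3 := loglog_two hT
  rw [← hLdef, ← hldef] at h3
  have h4 : k ^ 2 * Real.log (Real.log (2 * T)) ≤ k ^ 2 * (l + 1 / L) := by gcongr
  have h5 : k ^ 2 * (1 / L) ≤ k := by
    rw [mul_one_div, div_le_iff₀ hL0]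
    nlinarith
  have hD2 : 0 ≤ Real.log (2 * D) := Real.log_nonneg (by linarith)
  have h6 : Real.log V ≤ (expo k T + ε) * l := by
    have h7 : 2 * k * Real.log V ≤ 2 * k * ((expo k T + ε) * l) := by
      have e2 : 2 * k * ((expo k T + ε) * l) = k ^ 2 * l + (L + l) + 2 * k * (ε * l) := by
        unfold expo
        rw [← hLdef, ← hldef]
        field_simp
      rw [e2]
      have h8 : 2 * k * (Real.log 4 + Real.log (2 * D) / (2 * k₀) + 1 / 2) ≤
          2 * k * (ε * l) := by
        gcongr
      have h9 : Real.log (2 * D) ≤ 2 * k * (Real.log (2 * D) / (2 * k₀)) := by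
        have e3 : 2 * k * (Real.log (2 * D) / (2 * k₀)) = Real.log (2 * D) * (k / k₀) := by
          field_simp
        rw [e3]
        have : 1 ≤ k / k₀ := by
          rw [le_div_iff₀ (by linarith)]
          linarith
        nlinarith
      nlinarith
    exact le_of_mul_le_mul_left h7 (by positivity)
  calc V = Real.exp (Real.log V) := (Real.exp_log (by linarith)).symm
    _ ≤ Real.exp ((expo k T + ε) * l) := Real.exp_le_exp.2 h6
    _ = L ^ (expo k T + ε) := by
      rw [Real.rpow_def_of_pos hL0]
      congr 1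
      ring

lemma expo_nonneg {T k : ℝ} (hT : 1000 ≤ T) (hk : 1 ≤ k) : 0 ≤ expo k T := by
  have hL := log_ge hT
  have hl := loglog_ge hT
  unfold expo
  have : 0 ≤ (Real.log T / Real.log (Real.log T) + 1) / k := by
    apply div_nonneg _ (by linarith)
    have : 0 ≤ Real.log T / Real.log (Real.log T) := div_nonneg (by linarith) (by linarith)
    linarith
  linarith

/-- the inequality of Q2 for the order `k` bounds the maximum, uniformly in `k` -/
lemma sup_all {ε : ℝ} (hε : 0 < ε) : ∃ T₀ : ℝ, 1000 ≤ T₀ ∧ ∀ T : ℝ, T₀ ≤ T → ∀ k : ℝ, 1 ≤ k →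
    Good k (2 * T) → ∀ t ∈ Icc (0:ℝ) T, Z t ≤ Real.log T ^ (expo k T + ε) := by
  obtain ⟨D, T₁, hD, hT₁, hp⟩ := persist
  obtain ⟨T₂, hT₂⟩ := eventually_atTop.1
    ((tend_ll.const_mul_atTop hε).eventually_ge_atTop
      (Real.log 4 + Real.log (2 * D) / (2 * 1) + 1 / 2))
  refine ⟨max T₁ T₂, hT₁.trans (le_max_left _ _), fun T hT k hk hg t ht => ?_⟩
  have h1 : T₁ ≤ T := (le_max_left _ _).trans hT
  have h2 : T₂ ≤ T := (le_max_right _ _).trans hT
  have h3 : 1000 ≤ T := hT₁.trans h1
  have hL := log_ge h3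
  have hL0 : 0 < Real.log T := by linarith
  have hl := loglog_ge h3
  rcases lt_or_ge (Z t) 1 with hV | hV
  · have h4 : (1:ℝ) ≤ Real.log T ^ (expo k T + ε) :=
      Real.one_le_rpow (by linarith) (by linarith [expo_nonneg h3 hk])
    linarith
  rcases le_total k (Real.log T) with h4 | h4
  · exact sup_mid hD h3 le_rfl hk h4 hg hV (hp T h1 k (by linarith) t ht hV) (hT₂ T h2)
  · have h5 := sup_mid (k := 2) hD h3 le_rfl (by norm_num) (by linarith) (good_two (2 * T) (by linarith))
      hV (hp T h1 2 (by norm_num) t ht hV) (hT₂ T h2)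
    refine h5.trans ?_
    apply Real.rpow_le_rpow_of_exponent_le (by linarith)
    unfold expo
    have h6 : Real.log T / Real.log (Real.log T) ≤ Real.log T := by
      rw [div_le_iff₀ (by linarith)]
      nlinarith
    have h7 : 0 ≤ (Real.log T / Real.log (Real.log T) + 1) / k := by
      apply div_nonneg _ (by linarith)
      have : 0 ≤ Real.log T / Real.log (Real.log T) := div_nonneg (by linarith) (by linarith)
      linarith
    linarith

end Pool.Agent.W5h1.ZD
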