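import Pool.Agent.W5h1.ZD.P3

set_option autoImplicit false

open Complex MeasureTheory Set Filter Topology
open Pool.Agent.Results.MP_3d0d30_nt.ReductionsAndLargeValues

namespace Pool.Agent.W5h1.ZD

/-- duality of orders -/
lemma dual {ε : ℝ} (hε : 0 < ε) : ∃ T₀ : ℝ, 1000 ≤ T₀ ∧ ∀ T : ℝ, T₀ ≤ T → ∀ k : ℝ, 1 ≤ k →
    Good k T → Good k (2 * T) → ∀ k' : ℝ, k ≤ k' →
      (Real.log T / Real.log (Real.log T) + 1) / k + ε ≤ k' → Good k' T := by
  obtain ⟨T₀, hT₀, h⟩ := sup_all (half_pos hε)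
  refine ⟨T₀, hT₀, fun T hT k hk hg hg2 k' hk1 hk2 => ?_⟩
  refine reflect (hT₀.trans hT) (h T hT k hk hg2) (by linarith) hg hk1 ?_
  unfold expo
  linarith

lemma crit_mono {T : ℝ} (hT : 1000 ≤ T) : crit T ≤ crit (2 * T) := by
  unfold crit
  apply Real.sqrt_le_sqrt
  have hL := log_ge hT
  have hl := loglog_ge hT
  have h1 : Real.log T ≤ Real.log (2 * T) := Real.log_le_log (by linarith) (by linarith)
  have h2 : Real.log (Real.log T) ≤ Real.log (Real.log (2 * T)) :=
    Real.log_le_log (by linarith) h1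
  have he := Real.exp_one_lt_d9
  have h3 := Real.log_div_self_antitoneOn (show Real.exp 1 ≤ Real.log T by linarith)
    (show Real.exp 1 ≤ Real.log (2 * T) by linarith) h1
  simp only at h3
  rw [div_le_div_iff₀ (by linarith) (by linarith)] at h3 ⊢
  linarith

lemma crit_sq {T : ℝ} (hT : 1000 ≤ T) : crit T ^ 2 = Real.log T / Real.log (Real.log T) := by
  unfold crit
  rw [Real.sq_sqrt]
  have hL := log_ge hT
  have hl := loglog_ge hT
  exact div_nonneg (by linarith) (by linarith)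

lemma crit_two {T : ℝ} (hT : 1000 ≤ T) {δ : ℝ} (hδ : 0 < δ) (h : 1 ≤ 2 * δ * crit T) :
    crit (2 * T) ≤ crit T + δ := by
  have hc : 0 ≤ crit T := Real.sqrt_nonneg _
  have hc2 : 0 ≤ crit (2 * T) := Real.sqrt_nonneg _
  have h1 := crit_sq hT
  have h2 := crit_sq (show 1000 ≤ 2 * T by linarith)
  have hL := log_ge hT
  have hl := loglog_ge hT
  have h3 : Real.log (2 * T) = Real.log 2 + Real.log T :=
    Real.log_mul (by norm_num) (by linarith)
  have h4 : Real.log 2 ≤ 1 := by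
    have := Real.log_two_lt_d9
    linarith
  have h0 : 0 < Real.log 2 := Real.log_pos (by norm_num)
  have h5 : Real.log (Real.log T) ≤ Real.log (Real.log (2 * T)) :=
    Real.log_le_log (by linarith) (by linarith)
  have h6 : crit (2 * T) ^ 2 ≤ crit T ^ 2 + 1 := by
    rw [h1, h2]
    calc Real.log (2 * T) / Real.log (Real.log (2 * T))
        ≤ Real.log (2 * T) / Real.log (Real.log T) := by
          apply div_le_div_of_nonneg_left (by linarith) (by linarith) h5
      _ ≤ (Real.log T + Real.log (Real.log T)) / Real.log (Real.log T) := by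
          apply div_le_div_of_nonneg_right _ (by linarith)
          linarith
      _ = Real.log T / Real.log (Real.log T) + 1 := by
          have : Real.log (Real.log T) ≠ 0 := by linarith
          field_simp
  nlinarith

lemma tend_crit : Tendsto crit atTop atTop := Real.tendsto_sqrt_atTop.comp tend_ratio

/-- the maximum from the critical order -/
lemma sup_crit {ε : ℝ} (hε : 0 < ε) : ∃ T₀ : ℝ, 1000 ≤ T₀ ∧ ∀ T : ℝ, T₀ ≤ T →
    Good (crit (2 * T)) (2 * T) → ∀ t ∈ Icc (0:ℝ) T, Z t ≤ Real.log T ^ (crit T + ε) := by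
  obtain ⟨T₀, hT₀, h⟩ := sup_all (half_pos hε)
  obtain ⟨T₁, hT₁⟩ := eventually_atTop.1 (tend_crit.eventually_ge_atTop (max 1 (2 / ε)))
  refine ⟨max T₀ T₁, hT₀.trans (le_max_left _ _), fun T hT hg t ht => ?_⟩
  have h0 : T₀ ≤ T := (le_max_left _ _).trans hT
  have h1 : T₁ ≤ T := (le_max_right _ _).trans hT
  have h3 : 1000 ≤ T := hT₀.trans h0
  have h4 := hT₁ T h1
  have hc1 : 1 ≤ crit T := (le_max_left _ _).trans h4
  have hc2 : 2 / ε ≤ crit T := (le_max_right _ _).trans h4
  rw [div_le_iff₀ hε] at hc2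
  have h5 := crit_mono h3
  have h6 := crit_two h3 (δ := ε / 4) (by linarith) (by linarith)
  set k := crit (2 * T) with hk
  have hk1 : 1 ≤ k := hc1.trans h5
  refine (h T h0 k hk1 hg t ht).trans ?_
  apply Real.rpow_le_rpow_of_exponent_le (by linarith [log_ge h3])
  have h7 : (Real.log T / Real.log (Real.log T) + 1) / k ≤ k + ε / 2 := by
    rw [div_le_iff₀ (by linarith), ← crit_sq h3]
    nlinarith
  unfold expo
  linarith

/-- the orders above the critical order -/
lemma above {ε : ℝ} (hε : 0 < ε) : ∃ T₀ : ℝ, 1000 ≤ T₀ ∧ ∀ T : ℝ, T₀ ≤ T →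
    Good (crit T) T → Good (crit (2 * T)) (2 * T) →
      (∀ t ∈ Icc (0:ℝ) T, Z t ≤ Real.log T ^ (crit T + ε)) ∧
        ∀ k : ℝ, crit T + ε ≤ k → Good k T := by
  obtain ⟨T₀, hT₀, h⟩ := sup_crit (half_pos hε)
  refine ⟨T₀, hT₀, fun T hT hg hg2 => ⟨fun t ht => (h T hT hg2 t ht).trans ?_, fun k hk => ?_⟩⟩
  · apply Real.rpow_le_rpow_of_exponent_le (by linarith [log_ge (hT₀.trans hT)])
    linarith
  · have hc : 0 ≤ crit T := Real.sqrt_nonneg _
    exact reflect (hT₀.trans hT) (h T hT hg2) hc hg (by linarith) (by linarith)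

lemma rpow_crit {T : ℝ} (hT : 1000 ≤ T) (ε : ℝ) : Real.log T ^ (crit T + ε) =
    Real.log T ^ ε * Real.exp (Real.sqrt (Real.log T * Real.log (Real.log T))) := by
  have hL := log_ge hT
  have hl := loglog_ge hT
  have hL0 : 0 < Real.log T := by linarith
  have hl0 : 0 < Real.log (Real.log T) := by linarith
  rw [Real.rpow_add hL0, mul_comm]
  congr 1
  rw [Real.rpow_def_of_pos hL0]
  congr 1
  unfold crit
  rw [Real.sqrt_div hL0.le, Real.sqrt_mul hL0.le]
  have h1 : Real.sqrt (Real.log (Real.log T)) ≠ 0 := (Real.sqrt_pos.2 hl0).ne'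
  field_simp
  rw [Real.sq_sqrt hl0.le]

end Pool.Agent.W5h1.ZD
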