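import Pool.Agent.W5h1.ZD.P4

set_option autoImplicit false

open Complex MeasureTheory Set Filter Topology
open Pool.Agent.Results.MP_3d0d30_nt.ReductionsAndLargeValues

namespace Pool.Agent.W5h1.ZD

/-- the Gaussian bound at the critical level bounds the maximum -/
lemma gauss_sup {ε : ℝ} (hε : 0 < ε) : ∃ T₀ : ℝ, 1000 ≤ T₀ ∧ ∀ T : ℝ, T₀ ≤ T →
    volume.real (Large (Real.log (2 * T) ^ (crit (2 * T) + ε)) (2 * T)) ≤
      2 * T * Real.log (2 * T) ^ (-(crit (2 * T) + ε) ^ 2) →
    ∀ t ∈ Icc (0:ℝ) T, Z t ≤ 4 * Real.log (2 * T) ^ (crit (2 * T) + ε) := by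
  obtain ⟨D, T₁, hD, hT₁, hp⟩ := persist0
  obtain ⟨T₂, hT₂⟩ := eventually_atTop.1 (tend_ll.eventually_gt_atTop (Real.log D))
  obtain ⟨T₃, hT₃⟩ := eventually_atTop.1 (tend_crit.eventually_ge_atTop (1 / ε))
  refine ⟨max T₁ (max T₂ T₃), hT₁.trans (le_max_left _ _), fun T hT hv t ht => ?_⟩
  have h1 : T₁ ≤ T := (le_max_left _ _).trans hT
  have h2 : T₂ ≤ T := (le_max_left _ _).trans ((le_max_right _ _).trans hT)
  have h3 : T₃ ≤ T := (le_max_right _ _).trans ((le_max_right _ _).trans hT)
  have hT3 : 1000 ≤ T := hT₁.trans h1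
  have hX3 : 1000 ≤ 2 * T := by linarith
  have hLT := log_ge hT3
  have hL := log_ge hX3
  have hl := loglog_ge hX3
  set X := 2 * T with hX
  have hX0 : 0 < X := by linarith
  have hL0 : 0 < Real.log X := by linarith
  have hl0 : 0 < Real.log (Real.log X) := by linarith
  have hc0 : 0 ≤ crit X := Real.sqrt_nonneg _
  set W := Real.log X ^ (crit X + ε) with hW
  have hW1 : 1 ≤ W := Real.one_le_rpow (by linarith) (by linarith)
  by_contra hcon
  push Not at hcon
  obtain ⟨t₀, ht₀, htr, hlow⟩ := hp T h1 t ht (by linarith)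
  set r : ℝ := 1 / (D * Real.log T) with hr
  have hr0 : 0 < r := by positivity
  have hsub : Icc t₀ (t₀ + r) ⊆ Large W X := by
    intro u hu
    refine ⟨⟨by linarith [hu.1], by linarith [hu.2]⟩, ?_⟩
    have := hlow u hu
    linarith
  have hfin : volume (Large W X) ≠ ⊤ := by
    refine ne_top_of_le_ne_top ?_ (measure_mono (show Large W X ⊆ Icc 0 X from fun _ h => h.1))
    rw [Real.volume_Icc]
    exact ENNReal.ofReal_ne_top
  have hvol : r ≤ volume.real (Large W X) := by
    have h4 : volume.real (Icc t₀ (t₀ + r)) ≤ volume.real (Large W X) :=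
      measureReal_mono hsub hfin
    have h5 : volume.real (Icc t₀ (t₀ + r)) = r := by
      rw [Measure.real, Real.volume_Icc, ENNReal.toReal_ofReal (by linarith)]
      ring
    rw [h5] at h4
    exact h4
  have h4 := hvol.trans hv
  have hXe : X * Real.log X ^ (-(crit X + ε) ^ 2) ≤
      Real.exp (-(2 * Real.log (Real.log X))) := by
    have h5 : X = Real.exp (Real.log X) := (Real.exp_log hX0).symm
    have h6 := crit_sq hX3
    have h7 : crit X ^ 2 * Real.log (Real.log X) = Real.log X := by
      rw [h6]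
      field_simp
    have h8 : 1 ≤ ε * crit X := by
      have := hT₃ X (by linarith)
      rw [div_le_iff₀ hε] at this
      linarith
    calc X * Real.log X ^ (-(crit X + ε) ^ 2)
        = Real.exp (Real.log X) * Real.exp (Real.log (Real.log X) * (-(crit X + ε) ^ 2)) := by
          rw [← h5, Real.rpow_def_of_pos hL0]
      _ = Real.exp (Real.log X + Real.log (Real.log X) * (-(crit X + ε) ^ 2)) :=
          (Real.exp_add _ _).symm
      _ ≤ Real.exp (-(2 * Real.log (Real.log X))) := by
          rw [Real.exp_le_exp]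
          have e : Real.log X + Real.log (Real.log X) * (-(crit X + ε) ^ 2) =
              -(2 * (ε * crit X) + ε ^ 2) * Real.log (Real.log X) := by
            linear_combination -h7
          rw [e]
          nlinarith [mul_nonneg (sub_nonneg.2 h8) hl0.le, mul_nonneg (sq_nonneg ε) hl0.le]
  have h5 : Real.exp (-(2 * Real.log (Real.log X))) < r := by
    have h6 := hT₂ X (by linarith)
    have h7 : D < Real.log X := by
      have := (Real.log_lt_log_iff (by linarith) hL0).1 h6
      exact this
    have h8 : Real.exp (-(2 * Real.log (Real.log X))) = 1 / (Real.log X * Real.log X) := by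
      rw [Real.exp_neg, two_mul, Real.exp_add, Real.exp_log hL0, one_div]
    rw [h8, hr]
    apply one_div_lt_one_div_of_lt (by positivity)
    have h9 : Real.log T ≤ Real.log X := Real.log_le_log (by linarith) (by linarith)
    have : D * Real.log T ≤ D * Real.log X := by gcongr
    nlinarith
  linarith

/-- the comparison of the levels at `2T` and `T` -/
lemma level {ε : ℝ} (hε : 0 < ε) : ∃ T₀ : ℝ, 1000 ≤ T₀ ∧ ∀ T : ℝ, T₀ ≤ T →
    4 * Real.log (2 * T) ^ (crit (2 * T) + ε / 4) ≤ Real.log T ^ (crit T + ε) := by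
  obtain ⟨T₂, hT₂⟩ := eventually_atTop.1
    ((tend_ll.const_mul_atTop (half_pos hε)).eventually_ge_atTop (Real.log 4 + 1 + ε))
  obtain ⟨T₃, hT₃⟩ := eventually_atTop.1 (tend_crit.eventually_ge_atTop (2 / ε))
  refine ⟨max 1000 (max T₂ T₃), le_max_left _ _, fun T hT => ?_⟩
  have hT3 : 1000 ≤ T := (le_max_left _ _).trans hT
  have h2 : T₂ ≤ T := (le_max_left _ _).trans ((le_max_right _ _).trans hT)
  have h3 : T₃ ≤ T := (le_max_right _ _).trans ((le_max_right _ _).trans hT)
  have hX3 : 1000 ≤ 2 * T := by linarith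
  have hLT := log_ge hT3
  have hlT := loglog_ge hT3
  have hL := log_ge hX3
  have hl := loglog_ge hX3
  have hc0 : 0 ≤ crit T := Real.sqrt_nonneg _
  have hc2 : 0 ≤ crit (2 * T) := Real.sqrt_nonneg _
  have h4 := hT₃ T h3
  rw [div_le_iff₀ hε] at h4
  have h5 := crit_two hT3 (δ := ε / 4) (by linarith) (by linarith)
  have h6 := loglog_two hT3
  have h7 := hT₂ T h2
  have h8 : crit T ≤ Real.log T := by
    unfold crit
    rw [Real.sqrt_le_left (by linarith)]
    rw [div_le_iff₀ (by linarith)]
    nlinarith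
  set l := Real.log (Real.log T) with hldef
  set L := Real.log T with hLdef
  have hL0 : 0 < L := by linarith
  have hLX0 : 0 < Real.log (2 * T) := by linarith
  have h9 : (crit (2 * T) + ε / 4) * Real.log (Real.log (2 * T)) ≤
      (crit T + ε / 2) * (l + 1 / L) := by
    have h10 : 0 ≤ 1 / L := by positivity
    apply mul_le_mul (by linarith) h6 (by linarith) (by linarith)
  have h11 : (crit T + ε / 2) * (1 / L) ≤ 1 + ε := by
    rw [mul_one_div, div_le_iff₀ hL0]
    nlinarith
  calc 4 * Real.log (2 * T) ^ (crit (2 * T) + ε / 4)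
      = Real.exp (Real.log 4 + (crit (2 * T) + ε / 4) * Real.log (Real.log (2 * T))) := by
        rw [Real.exp_add, Real.exp_log (by norm_num), Real.rpow_def_of_pos hLX0]
        congr 2
        ring
    _ ≤ Real.exp ((crit T + ε) * l) := by
        rw [Real.exp_le_exp]
        nlinarith
    _ = L ^ (crit T + ε) := by
        rw [Real.rpow_def_of_pos hL0]
        congr 1
        ring

/-- the Gaussian bound for the measure of the large values: only the levels up to the critical one
matter -/
lemma gauss_iff {ε : ℝ} (hε : 0 < ε) : ∃ T₀ : ℝ, ∀ T₁ : ℝ, T₀ ≤ T₁ →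
    ((∀ T : ℝ, T₁ ≤ T → Gauss T) ↔ ∀ T : ℝ, T₁ ≤ T → ∀ α : ℝ, 2 ≤ α → α ≤ crit T + ε →
      volume.real (Large (Real.log T ^ α) T) ≤ T * Real.log T ^ (-α ^ 2)) := by
  obtain ⟨T₀, hT₀, h1⟩ := gauss_sup (show 0 < ε / 4 by linarith)
  obtain ⟨T₂, hT₂, h2⟩ := level hε
  obtain ⟨T₃, hT₃⟩ := eventually_atTop.1 (tend_crit.eventually_ge_atTop 2)
  refine ⟨max T₀ (max T₂ T₃), fun T₁ hT₁ => ⟨fun h T hT α hα _ => h T hT α hα,
    fun h T hT α hα => ?_⟩⟩
  have ha : T₀ ≤ T := (le_max_left _ _).trans (hT₁.trans hT)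
  have hb : T₂ ≤ T := (le_max_left _ _).trans ((le_max_right _ _).trans (hT₁.trans hT))
  have hc : T₃ ≤ T := (le_max_right _ _).trans ((le_max_right _ _).trans (hT₁.trans hT))
  have h3 : 1000 ≤ T := hT₀.trans ha
  rcases le_total α (crit T + ε) with h4 | h4
  · exact h T hT α hα h4
  · have h5 := hT₃ (2 * T) (by linarith)
    have h6 := h1 T ha (h (2 * T) (by linarith) (crit (2 * T) + ε / 4) (by linarith)
      (by linarith))
    have hempty : Large (Real.log T ^ α) T = ∅ := by
      rw [Set.eq_empty_iff_forall_notMem]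
      rintro t ⟨ht, hlt⟩
      have h7 := (h6 t ht).trans (h2 T hb)
      have h8 : Real.log T ^ (crit T + ε) ≤ Real.log T ^ α :=
        Real.rpow_le_rpow_of_exponent_le (by linarith [log_ge h3]) h4
      linarith
    rw [hempty, measureReal_empty]
    have := log_ge h3
    positivity

end Pool.Agent.W5h1.ZD
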