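import Pool.Agent.W5h1.ZD.P5

set_option autoImplicit false

open Complex MeasureTheory Set Filter Topology
open Pool.Agent.Results.MP_3d0d30_nt.ReductionsAndLargeValues

namespace Pool.Agent.W5h1.ZD

/-- `c log log T ≤ (log T)^δ` for all large `T` -/
lemma ll_small (c : ℝ) {δ : ℝ} (hδ : 0 < δ) : ∃ T₀ : ℝ, ∀ T : ℝ, T₀ ≤ T →
    c * Real.log (Real.log T) ≤ Real.log T ^ δ := by
  have h := (isLittleO_log_rpow_atTop hδ).bound (show 0 < 1 / (|c| + 1) by positivity)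
  have h2 := Real.tendsto_log_atTop.eventually h
  obtain ⟨T₀, hT₀⟩ := eventually_atTop.1 h2
  refine ⟨max T₀ 1000, fun T hT => ?_⟩
  have h3 := hT₀ T ((le_max_left _ _).trans hT)
  have h4 : 1000 ≤ T := (le_max_right _ _).trans hT
  have hL := log_ge h4
  have hl := loglog_ge h4
  have hp : 0 < Real.log T ^ δ := Real.rpow_pos_of_pos (by linarith) _
  rw [Real.norm_of_nonneg (by linarith), Real.norm_of_nonneg hp.le] at h3
  rw [one_div, inv_mul_eq_div, le_div_iff₀ (by positivity)] at h3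
  nlinarith [le_abs_self c]

/-- `c ≤ (log T)^δ` for all large `T` -/
lemma const_small (c : ℝ) {δ : ℝ} (hδ : 0 < δ) : ∃ T₀ : ℝ, ∀ T : ℝ, T₀ ≤ T →
    c ≤ Real.log T ^ δ := by
  have h := ((tendsto_rpow_atTop hδ).comp Real.tendsto_log_atTop).eventually_ge_atTop c
  exact eventually_atTop.1 h

/-- one order between `(log T)^{1-β}` and `(log T)^β` bounds the maximum -/
lemma max_of_one {β : ℝ} (hβ : 1 / 2 ≤ β) (h : ∀ ε : ℝ, 0 < ε → ∃ T₀ : ℝ, ∀ T : ℝ, T₀ ≤ T →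
    ∃ k : ℝ, 1 ≤ k ∧ Real.log T ^ (1 - β - ε) ≤ k ∧ k ≤ Real.log T ^ (β + ε) ∧ Good k T)
    {ε : ℝ} (hε : 0 < ε) : ∃ t₀ : ℝ, ∀ t : ℝ, t₀ ≤ t → Z t ≤ Real.exp (Real.log t ^ (β + ε)) := by
  obtain ⟨T₀, hT₀⟩ := h (ε / 2) (half_pos hε)
  obtain ⟨T₁, hT₁, hs⟩ := sup_all one_pos
  obtain ⟨T₂, hT₂⟩ := ll_small (3 * 2 ^ (β + ε / 2)) (half_pos hε)
  refine ⟨max T₀ (max T₁ T₂), fun T hT => ?_⟩
  have ha : T₀ ≤ T := (le_max_left _ _).trans hT
  have hb : T₁ ≤ T := (le_max_left _ _).trans ((le_max_right _ _).trans hT)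
  have hc : T₂ ≤ T := (le_max_right _ _).trans ((le_max_right _ _).trans hT)
  have h3 : 1000 ≤ T := hT₁.trans hb
  have hL := log_ge h3
  have hl := loglog_ge h3
  obtain ⟨k, hk1, hk2, hk3, hg⟩ := hT₀ (2 * T) (by linarith)
  have h4 := hs T hb k hk1 hg T ⟨by linarith, le_rfl⟩
  refine h4.trans ?_
  have hL0 : 0 < Real.log T := by linarith
  have h5 := hT₂ T hc
  set Y := Real.log (2 * T) with hY
  have hY1 : Real.log T ≤ Y := Real.log_le_log (by linarith) (by linarith)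
  have hY2 : Y ≤ 2 * Real.log T := by
    rw [hY, Real.log_mul (by norm_num) (by linarith)]
    have := Real.log_two_lt_d9
    linarith
  have hY0 : 0 < Y := by linarith
  rw [Real.rpow_def_of_pos hL0, Real.exp_le_exp]
  have h6 : Y / k ≤ Y ^ (β + ε / 2) := by
    rw [div_le_iff₀ (by linarith)]
    calc Y = Y ^ (β + ε / 2) * Y ^ (1 - β - ε / 2) := by
          rw [← Real.rpow_add hY0]
          have e : β + ε / 2 + (1 - β - ε / 2) = 1 := by ring
          rw [e, Real.rpow_one]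
      _ ≤ Y ^ (β + ε / 2) * k := by gcongr
  have hP1 : 1 ≤ Y ^ (β + ε / 2) := Real.one_le_rpow (by linarith) (by linarith)
  set P := Y ^ (β + ε / 2) with hP
  set l := Real.log (Real.log T) with hldef
  set L := Real.log T with hLdef
  have h7 : l * (expo k T + 1) ≤ 3 * l * P := by
    have e : l * (expo k T + 1) = (k * l + (L + l) / k) / 2 + l := by
      unfold expo
      rw [← hLdef, ← hldef]
      field_simp
    have h8 : (L + l) / k ≤ 2 * (Y / k) := by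
      rw [← mul_div_assoc]
      apply div_le_div_of_nonneg_right _ (by linarith)
      have : l ≤ L := by
        have := Real.log_le_sub_one_of_pos hL0
        linarith
      linarith
    have h9 : k * l ≤ P * l := by gcongr
    rw [e]
    nlinarith
  have h8 : P ≤ 2 ^ (β + ε / 2) * L ^ (β + ε / 2) := by
    rw [hP, ← Real.mul_rpow (by norm_num) hL0.le]
    exact Real.rpow_le_rpow hY0.le hY2 (by linarith)
  calc l * (expo k T + 1) ≤ 3 * l * P := h7
    _ ≤ 3 * l * (2 ^ (β + ε / 2) * L ^ (β + ε / 2)) := by gcongr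
    _ = 3 * 2 ^ (β + ε / 2) * l * L ^ (β + ε / 2) := by ring
    _ ≤ L ^ (ε / 2) * L ^ (β + ε / 2) := by gcongr
    _ = L ^ (β + ε) := by
      rw [← Real.rpow_add hL0]
      congr 1
      ring

/-- the maximum bounds the large orders -/
lemma orders_of_max {β : ℝ} (hβ : 1 / 2 ≤ β) (h : ∀ ε : ℝ, 0 < ε → ∃ t₀ : ℝ, ∀ t : ℝ, t₀ ≤ t →
    Z t ≤ Real.exp (Real.log t ^ (β + ε))) {ε : ℝ} (hε : 0 < ε) : ∃ T₀ : ℝ, ∀ T : ℝ, T₀ ≤ T →
    ∀ k : ℝ, 2 ≤ k → Real.log T ^ (β + ε) ≤ k → Good k T := by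
  obtain ⟨t₀, ht₀⟩ := h (ε / 2) (half_pos hε)
  set s₀ := max t₀ 1000 with hs₀
  obtain ⟨C, hC⟩ := (isCompact_Icc (a := (0:ℝ)) (b := s₀)).exists_bound_of_continuousOn
    Z_cont.continuousOn
  obtain ⟨T₁, hT₁⟩ := const_small C (show 0 < β + ε / 2 by linarith)
  obtain ⟨T₂, hT₂⟩ := const_small 2 (half_pos hε)
  refine ⟨max (max T₁ T₂) 1000, fun T hT k hk hk2 => ?_⟩
  have ha : T₁ ≤ T := (le_max_left _ _).trans ((le_max_left _ _).trans hT)
  have hb : T₂ ≤ T := (le_max_right _ _).trans ((le_max_left _ _).trans hT)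
  have h3 : 1000 ≤ T := (le_max_right _ _).trans hT
  have hL := log_ge h3
  have hl := loglog_ge h3
  have hL0 : 0 < Real.log T := by linarith
  have hmax : ∀ t ∈ Icc (0:ℝ) T, Z t ≤ Real.log T ^
      (Real.log T ^ (β + ε / 2) / Real.log (Real.log T)) := by
    intro t ht
    have e : Real.log T ^ (Real.log T ^ (β + ε / 2) / Real.log (Real.log T)) =
        Real.exp (Real.log T ^ (β + ε / 2)) := by
      rw [Real.rpow_def_of_pos hL0]
      congr 1
      have : Real.log (Real.log T) ≠ 0 := by linarith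
      field_simp
    rw [e]
    rcases le_total t s₀ with h4 | h4
    · have h5 := hC t ⟨ht.1, h4⟩
      rw [Real.norm_of_nonneg (Z_nonneg t)] at h5
      have h6 := hT₁ T ha
      have h7 := Real.add_one_le_exp (Real.log T ^ (β + ε / 2))
      linarith
    · have h5 : t₀ ≤ t := (le_max_left _ _).trans h4
      have h6 : 1000 ≤ t := (le_max_right _ _).trans h4
      refine (ht₀ t h5).trans (Real.exp_le_exp.2 ?_)
      apply Real.rpow_le_rpow (by linarith [log_ge h6]) _ (by linarith)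
      exact Real.log_le_log (by linarith) ht.2
  refine reflect h3 hmax (by norm_num) (good_two T h3) hk ?_
  have h5 : Real.log T ^ (β + ε) = Real.log T ^ (ε / 2) * Real.log T ^ (β + ε / 2) := by
    rw [← Real.rpow_add hL0]
    congr 1
    ring
  have h6 := hT₂ T hb
  have h7 : 0 < Real.log T ^ (β + ε / 2) := Real.rpow_pos_of_pos hL0 _
  have h8 : Real.log T ^ (β + ε / 2) / Real.log (Real.log T) ≤ Real.log T ^ (β + ε / 2) := by
    rw [div_le_iff₀ (by linarith)]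
    nlinarith
  nlinarith

/-- the large orders contain one order in the window -/
lemma one_of_orders {β : ℝ} (hβ : 1 / 2 ≤ β) (h : ∀ ε : ℝ, 0 < ε → ∃ T₀ : ℝ, ∀ T : ℝ, T₀ ≤ T →
    ∀ k : ℝ, 2 ≤ k → Real.log T ^ (β + ε) ≤ k → Good k T) {ε : ℝ} (hε : 0 < ε) :
    ∃ T₀ : ℝ, ∀ T : ℝ, T₀ ≤ T → ∃ k : ℝ, 1 ≤ k ∧ Real.log T ^ (1 - β - ε) ≤ k ∧
      k ≤ Real.log T ^ (β + ε) ∧ Good k T := by
  obtain ⟨T₀, hT₀⟩ := h (ε / 2) (half_pos hε)
  refine ⟨max T₀ 1000, fun T hT => ?_⟩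
  have ha : T₀ ≤ T := (le_max_left _ _).trans hT
  have h3 : 1000 ≤ T := (le_max_right _ _).trans hT
  have hL := log_ge h3
  have hL1 : 1 ≤ Real.log T := by linarith
  refine ⟨max 2 (Real.log T ^ (β + ε / 2)), le_trans (by norm_num) (le_max_left _ _),
    le_trans ?_ (le_max_right _ _), max_le ?_ ?_, hT₀ T ha _ (le_max_left _ _) (le_max_right _ _)⟩
  · exact Real.rpow_le_rpow_of_exponent_le hL1 (by linarith)
  · calc (2:ℝ) ≤ Real.sqrt (Real.log T) := by
          apply Real.le_sqrt_of_sq_le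
          linarith
      _ = Real.log T ^ (1 / 2 : ℝ) := Real.sqrt_eq_rpow _
      _ ≤ Real.log T ^ (β + ε) := Real.rpow_le_rpow_of_exponent_le hL1 (by linarith)
  · exact Real.rpow_le_rpow_of_exponent_le hL1 (by linarith)

/-- finitely many orders -/
lemma finite_orders {ε : ℝ} (hε : 0 < ε) : ∃ T₀ : ℝ, ∀ T : ℝ, T₀ ≤ T → ∀ Δ : ℝ, 0 < Δ →
    Δ ^ 2 * Real.log (Real.log T) ≤ 1 → Good (crit (2 * T)) (2 * T) →
    (∀ n : ℕ, 1 ≤ n → 2 + n * Δ ≤ crit T + ε + Δ →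
      M (2 + n * Δ) T ≤ 7 / 9 * (T * Real.log T ^ ((2 + n * Δ) ^ 2))) →
    ∀ k : ℝ, 2 ≤ k → Good k T := by
  obtain ⟨T₀, hT₀, h⟩ := sup_crit hε
  refine ⟨max T₀ (10 ^ 8), fun T hT Δ hΔ hΔ2 hg hn => ?_⟩
  have ha : T₀ ≤ T := (le_max_left _ _).trans hT
  have hb : (10:ℝ) ^ 8 ≤ T := (le_max_right _ _).trans hT
  have h3 : 1000 ≤ T := hT₀.trans ha
  have hL := log_ge h3
  have hL0 : 0 < Real.log T := by linarith
  refine result.2.2.2.2.2.2.1 T hb (Real.log T ^ (crit T + ε)) Δ (h T ha hg) hΔ hΔ2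
    fun n h1 h2 => hn n h1 ?_
  rw [← Real.rpow_add hL0] at h2
  exact (Real.rpow_le_rpow_left_iff (by linarith)).1 h2

end Pool.Agent.W5h1.ZD
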