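import Pool.Agent.W5h1.ZD.P6

set_option autoImplicit false

open Complex MeasureTheory Set Filter Topology
open Pool.Agent.Results.MP_3d0d30_nt.ReductionsAndLargeValues

namespace Pool.Agent.W5h1.ZD

/-- growth of the zeta function, explicit -/
lemma zeta20 (w : ℂ) (h1 : 1 / 8 ≤ w.re) (h2 : w.re ≤ 7 / 8) :
    ‖riemannZeta w‖ ≤ 20 * (1 + |w.im|) := by
  have hs0 : 0 < w.re := by linarith
  have hw1 : w ≠ 1 := by
    intro h
    rw [h] at h2
    norm_num at h2
  have hb := Pool.Agent.H448R2.GC.X2.zeta_bd w hs0 hw1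
  have hsub : 1 / ‖w - 1‖ ≤ 8 := by
    have h3 : 1 / 8 ≤ ‖w - 1‖ := by
      have h4 := Complex.abs_re_le_norm (w - 1)
      rw [Complex.sub_re, Complex.one_re] at h4
      have h5 : -(w.re - 1) ≤ |w.re - 1| := neg_le_abs _
      linarith
    rw [div_le_iff₀ (by linarith)]
    linarith
  have hn : ‖w‖ / w.re ≤ 1 + 8 * |w.im| := by
    have h4 := Complex.norm_le_abs_re_add_abs_im w
    rw [abs_of_pos hs0] at h4
    rw [div_le_iff₀ hs0]
    have : |w.im| ≤ 8 * |w.im| * w.re := by nlinarith [abs_nonneg w.im]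
    nlinarith
  nlinarith [abs_nonneg w.im]

lemma persist_ex {T : ℝ} (hT : 20000 ≤ T) {k : ℝ} (hk : 0 ≤ k) {t : ℝ} (ht : t ∈ Icc (0:ℝ) T)
    (hV : 1 ≤ Z t) : (Z t / 4) ^ (2 * k) ≤ 840000 * Real.log T * M k (2 * T) := by
  obtain ⟨t₀, ht₀, htr, hlow⟩ := core (C := 20) (by norm_num) zeta20 (by linarith) ht hV
  have hL0 : 0 < Real.log T := by linarith [log_ge (show (1000:ℝ) ≤ T by linarith)]
  have e : (40000:ℝ) * (1 + 20) * Real.log T = 840000 * Real.log T := by ring
  rw [e] at htr hlow
  have h4 := moment_of hk ht₀ (by positivity) htr (by linarith) hlow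
  rw [one_div, inv_mul_eq_div, div_le_iff₀ (by positivity)] at h4
  linarith

lemma log_big {T : ℝ} (hT : 5 * 10 ^ 12 ≤ T) : 29 ≤ Real.log T := by
  refine le_trans ?_ (Real.log_le_log (by norm_num) hT)
  exact Pool.Agent.TH158.FM.le_log_of_pow 1 29 (by norm_num) (by norm_num) (by norm_num)
    (by norm_num)

lemma loglog_big {T : ℝ} (hT : 5 * 10 ^ 12 ≤ T) : (336:ℝ) / 100 ≤ Real.log (Real.log T) := by
  refine le_trans ?_ (Real.log_le_log (by norm_num) (log_big hT))
  exact Pool.Agent.TH158.FM.le_log_of_pow 25 84 (by norm_num) (by norm_num) (by norm_num)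
    (by norm_num)

lemma log_le_lin {x : ℝ} (hx : 29 ≤ x) : Real.log x ≤ 16 / 100 * x := by
  have h1 := Real.log_le_sub_one_of_pos (show 0 < x / Real.exp 3 by positivity)
  rw [Real.log_div (by linarith) (Real.exp_pos 3).ne', Real.log_exp] at h1
  have h2 : 20 ≤ Real.exp 3 := by
    have h := Real.exp_one_gt_d9
    have e : Real.exp 3 = Real.exp 1 ^ 3 := by
      rw [← Real.exp_nat_mul]
      norm_num
    rw [e]
    calc (20:ℝ) ≤ (2.7182818283 : ℝ) ^ 3 := by norm_num
      _ ≤ Real.exp 1 ^ 3 := by gcongr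
  have h3 : x / Real.exp 3 ≤ x / 20 := by
    apply div_le_div_of_nonneg_left (by linarith) (by norm_num) h2
  linarith

lemma crit_big {T : ℝ} (hT : 5 * 10 ^ 12 ≤ T) : 5 / 2 ≤ crit T := by
  have hL := log_big hT
  have hl := loglog_big hT
  unfold crit
  apply Real.le_sqrt_of_sq_le
  rw [le_div_iff₀ (by linarith)]
  have := log_le_lin hL
  nlinarith

lemma crit_le {T : ℝ} (hT : 5 * 10 ^ 12 ≤ T) : crit T + 1 / 5 ≤ Real.log T := by
  have hL := log_big hT
  have hl := loglog_big hT
  have h1 : crit T ≤ Real.log T - 1 / 5 := by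
    unfold crit
    rw [Real.sqrt_le_left (by linarith), div_le_iff₀ (by linarith)]
    nlinarith
  linarith

/-- the orders above the critical order, explicit -/
lemma above_ex {T : ℝ} (hT : 5 * 10 ^ 12 ≤ T) (hg : Good (crit T) T)
    (hg2 : Good (crit (2 * T)) (2 * T)) {k : ℝ} (hk : crit T + 4 ≤ k) : Good k T := by
  have h3 : 1000 ≤ T := by linarith
  have hL := log_big hT
  have hl := loglog_big hT
  have hc := crit_big hT
  have hc1 := crit_mono h3
  have hc2 := crit_two h3 (δ := 1 / 5) (by norm_num) (by linarith)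
  have hc3 := crit_le hT
  refine reflect (κ := crit T + 2) h3 (fun t ht => ?_) (by linarith) hg (by linarith) (by linarith)
  rcases lt_or_ge (Z t) 1 with hV | hV
  · have h4 : (1:ℝ) ≤ Real.log T ^ (crit T + 2) := Real.one_le_rpow (by linarith) (by linarith)
    linarith
  have hlog4 : Real.log 4 ≤ 1.39 := by
    have e : (4:ℝ) = 2 ^ 2 := by norm_num
    rw [e, Real.log_pow]
    have := Real.log_two_lt_d9
    push_cast
    linarith
  have hlogD : Real.log (2 * 840000) ≤ 14.56 := by
    calc Real.log (2 * 840000) ≤ Real.log (2 ^ 21) :=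
          Real.log_le_log (by norm_num) (by norm_num)
      _ = 21 * Real.log 2 := by
          rw [Real.log_pow]
          norm_num
      _ ≤ 14.56 := by
          have := Real.log_two_lt_d9
          linarith
  have h5 := sup_mid (D := 840000) (k₀ := 5 / 2) (k := crit (2 * T)) (V := Z t) (ε := 143 / 100)
    (by norm_num) h3 (by norm_num) (by linarith) (by linarith) hg2 hV
    (persist_ex (by linarith) (by linarith) ht hV) (by
      have : Real.log (2 * 840000) / (2 * (5 / 2)) ≤ 14.56 / 5 := by
        rw [div_le_div_iff₀ (by norm_num) (by norm_num)]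
        linarith
      linarith)
  refine h5.trans ?_
  apply Real.rpow_le_rpow_of_exponent_le (by linarith)
  set k₁ := crit (2 * T) with hk₁
  have h7 : (Real.log T / Real.log (Real.log T) + 1) / k₁ ≤ k₁ + 2 / 5 := by
    rw [div_le_iff₀ (by linarith), ← crit_sq h3]
    nlinarith
  unfold expo
  linarith

/-- Q2 in terms of the orders up to the critical one, explicit -/
lemma q2_iff : Q2 ↔ ∀ k T : ℝ, 5 * 10 ^ 12 < T → 2 + 7 / (5 * Real.log T) < k →
    k ≤ crit T + 4 → Real.log T ^ k ≤ 4 * (T / (2 * Real.pi)) ^ (1 / 4 : ℝ) + 1 → Good k T := by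
  constructor
  · intro h k T hT hk _ _
    have hl : 0 < Real.log T := by linarith [log_big hT.le]
    have : 0 < 7 / (5 * Real.log T) := by positivity
    exact h k T (by linarith) (by linarith)
  · intro h
    have A : ∀ T : ℝ, 5 * 10 ^ 12 < T → ∀ k : ℝ, 2 ≤ k → k ≤ crit T + 4 → Good k T := by
      intro T hT k hk hk4
      have hL := log_big hT.le
      have h8 : (10:ℝ) ^ 8 ≤ T := by linarith
      rcases le_or_gt (Real.log T ^ (crit T + 4))
        (4 * (T / (2 * Real.pi)) ^ (1 / 4 : ℝ) + 1) with hW | hW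
      · rcases le_or_gt k (2 + 7 / (5 * Real.log T)) with h1 | h1
        · exact strip k T hk (by linarith) h1
        · exact h k T hT h1 hk4
            ((Real.rpow_le_rpow_of_exponent_le (by linarith) hk4).trans hW)
      · refine (orders (by linarith) (sup_bound h8)).2 (fun k' hk' h3 => ?_) k hk
        rcases le_or_gt k' (2 + 7 / (5 * Real.log T)) with h4 | h4
        · exact strip k' T hk' (by linarith) h4
        · refine h k' T hT h4 ?_ h3
          have h5 := h3.trans hW.le
          exact (Real.rpow_le_rpow_left_iff (by linarith)).1 h5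
    intro k T hk hT
    rcases le_or_gt T (5 * 10 ^ 12) with h1 | h1
    · exact small_range k T hk hT.le h1
    · rcases le_total k (crit T + 4) with h2 | h2
      · exact A T h1 k hk h2
      · have hc := crit_big h1.le
        have hc2 := crit_big (show 5 * 10 ^ 12 ≤ 2 * T by linarith)
        exact above_ex h1.le (A T h1 _ (by linarith) (by linarith))
          (A (2 * T) (by linarith) _ (by linarith) (by linarith)) h2

end Pool.Agent.W5h1.ZD
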